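import Pool.Agent.W599.DSN.Stm

set_option autoImplicit false

namespace Pool.Agent.W768.DSN

open Pool.Agent.W599.DSN

variable {X Y A : Type}

theorem nf_append (S T : FW A) : nf (S ++ T) = nf S + nf T := by
  induction S with
  | nil => simp [nf]
  | cons a S ih =>
    rcases a with a | v
    · simp [nf, ih]
    · simp only [List.cons_append, nf, ih]; omega

theorem ex_append (S T : FW A) : ex (S ++ T) = ex S ++ ex T := by
  induction S with
  | nil => simp [ex]
  | cons a S ih =>
    rcases a with a | v
    · simp [ex, ih]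
    · simp [ex, ih]

theorem nf_map_inl (l : List A) : nf (l.map (fun a => (Sum.inl a : A ⊕ List A))) = 0 := by
  induction l with
  | nil => rfl
  | cons a l ih => simpa [nf] using ih

theorem ex_map_inl (l : List A) : ex (l.map (fun a => (Sum.inl a : A ⊕ List A))) = l := by
  induction l with
  | nil => rfl
  | cons a l ih => simpa [ex] using ih

/-- the repeated letter -/
theorem rep_eq (g : Y → A) (v : List Y) :
    v.getLast?.toList.map (fun y => (Sum.inl (g y) : A ⊕ List A)) =
      (v.getLast?.toList.map g).map (fun a => (Sum.inl a : A ⊕ List A)) := by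
  simp

theorem nf_rep (g : Y → A) (v : List Y) :
    nf (v.getLast?.toList.map (fun y => (Sum.inl (g y) : A ⊕ List A))) = 0 := by
  rw [rep_eq]; exact nf_map_inl _

theorem ex_rep (g : Y → A) (v : List Y) :
    ex (v.getLast?.toList.map (fun y => (Sum.inl (g y) : A ⊕ List A))) =
      v.getLast?.toList.map g := by
  rw [rep_eq]; exact ex_map_inl _

theorem inr_mem_rep (g : Y → A) (v : List Y) (u : List A) :
    (Sum.inr u : A ⊕ List A) ∉ v.getLast?.toList.map (fun y => (Sum.inl (g y) : A ⊕ List A)) := by
  simp

theorem sub1_nf (g : Y → A) (h : X → A) : ∀ (T : FW Y) (xs : List X),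
    nf (sub1 g h xs T) = nf T := by
  intro T
  induction T with
  | nil => intro xs; cases xs <;> simp [sub1, nf]
  | cons a T ih =>
    intro xs
    rcases a with y | v
    · cases xs <;> simp [sub1, nf, ih]
    · cases xs with
      | nil => simp [sub1, nf, ih]
      | cons x xs =>
        simp only [sub1, nf, nf_append, ih]
        rw [nf_rep]; omega

theorem sub1_fanLen (g : Y → A) (h : X → A) (m : ℕ) : ∀ (T : FW Y) (xs : List X),
    xs.length = nf T → FanLen m T → FanLen (m + 1) (sub1 g h xs T) := by
  intro T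
  induction T with
  | nil =>
    intro xs _ _ v hv
    cases xs <;> simp [sub1] at hv
  | cons a T ih =>
    intro xs hx hT
    rcases a with y | v
    · have h1 : FanLen m T := fun v hv => hT v (List.mem_cons_of_mem _ hv)
      have h2 : xs.length = nf T := by simpa [nf] using hx
      have h3 := ih xs h2 h1
      intro u hu
      cases xs <;>
      · simp only [sub1, List.mem_cons] at hu
        rcases hu with hu | hu
        · exact absurd hu (by simp)
        · exact h3 u hu
    · cases xs with
      | nil => simp [nf] at hx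
      | cons x xs =>
        have h1 : FanLen m T := fun v hv => hT v (List.mem_cons_of_mem _ hv)
        have h2 : xs.length = nf T := by simpa [nf] using hx
        have h3 := ih xs h2 h1
        intro u hu
        simp only [sub1, List.mem_cons, List.mem_append] at hu
        rcases hu with hu | hu | hu
        · have h4 : v.length = m := hT v (by simp)
          have h5 : u = v.map g ++ [h x] := by simpa using hu
          rw [h5]; simp [h4]
        · exact absurd hu (inr_mem_rep g v u)
        · exact h3 u hu

theorem sub1_len (g : Y → A) (h : X → A) (m : ℕ) (hm : 1 ≤ m) : ∀ (T : FW Y) (xs : List X),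
    xs.length = nf T → FanLen m T →
    (ex (sub1 g h xs T)).length = (ex T).length + 2 * nf T := by
  intro T
  induction T with
  | nil => intro xs _ _; cases xs <;> simp [sub1, ex, nf]
  | cons a T ih =>
    intro xs hx hT
    rcases a with y | v
    · have h1 : FanLen m T := fun v hv => hT v (List.mem_cons_of_mem _ hv)
      have h2 : xs.length = nf T := by simpa [nf] using hx
      have h3 := ih xs h2 h1
      cases xs <;>
      · simp only [sub1, ex, nf, List.length_cons, h3]; omega
    · cases xs with
      | nil => simp [nf] at hx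
      | cons x xs =>
        have h1 : FanLen m T := fun v hv => hT v (List.mem_cons_of_mem _ hv)
        have h2 : xs.length = nf T := by simpa [nf] using hx
        have h3 := ih xs h2 h1
        have h4 : v.length = m := hT v (by simp)
        have h5 : v.getLast?.toList.length = 1 := by
          have : v ≠ [] := by
            intro hv; rw [hv] at h4; simp at h4; omega
          rw [List.getLast?_eq_getLast_of_ne_nil this]
          rfl
        simp only [sub1, ex, nf, ex_append, ex_rep, List.length_append, List.length_map,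
          List.length_cons, List.length_nil, h3, h5]
        omega

theorem sub1_mem_h (g : Y → A) (h : X → A) : ∀ (T : FW Y) (xs : List X),
    xs.length = nf T → ∀ x ∈ xs, ∃ u, Sum.inr u ∈ sub1 g h xs T ∧ h x ∈ u := by
  intro T
  induction T with
  | nil =>
    intro xs hx x hxx
    simp [nf] at hx
    simp [hx] at hxx
  | cons a T ih =>
    intro xs hx x hxx
    rcases a with y | v
    · have h2 : xs.length = nf T := by simpa [nf] using hx
      obtain ⟨u, hu, hu'⟩ := ih xs h2 x hxx
      refine ⟨u, ?_, hu'⟩
      cases xs <;> simp [sub1, hu]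
    · cases xs with
      | nil => simp at hxx
      | cons x' xs =>
        have h2 : xs.length = nf T := by simpa [nf] using hx
        simp only [List.mem_cons] at hxx
        rcases hxx with rfl | hxx
        · exact ⟨v.map g ++ [h x], by simp [sub1], by simp⟩
        · obtain ⟨u, hu, hu'⟩ := ih xs h2 x hxx
          exact ⟨u, by simp [sub1, hu], hu'⟩

theorem sub1_mem_g (g : Y → A) (h : X → A) : ∀ (T : FW Y) (xs : List X) (v : List Y),
    Sum.inr v ∈ T → ∃ u, Sum.inr u ∈ sub1 g h xs T ∧ ∀ y ∈ v, g y ∈ u := by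
  intro T
  induction T with
  | nil => intro xs v hv; simp at hv
  | cons a T ih =>
    intro xs v hv
    simp only [List.mem_cons] at hv
    rcases hv with hv | hv
    · subst hv
      cases xs with
      | nil => exact ⟨v.map g, by simp [sub1], fun y hy => List.mem_map_of_mem hy⟩
      | cons x xs =>
        exact ⟨v.map g ++ [h x], by simp [sub1], fun y hy =>
          List.mem_append_left _ (List.mem_map_of_mem hy)⟩
    · rcases a with y | w
      · obtain ⟨u, hu, hu'⟩ := ih xs v hv
        refine ⟨u, ?_, hu'⟩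
        cases xs <;> simp [sub1, hu]
      · cases xs with
        | nil =>
          obtain ⟨u, hu, hu'⟩ := ih [] v hv
          exact ⟨u, by simp [sub1, hu], hu'⟩
        | cons x xs =>
          obtain ⟨u, hu, hu'⟩ := ih xs v hv
          exact ⟨u, by simp [sub1, hu], hu'⟩

theorem sub1_ex_mem (g : Y → A) (h : X → A) : ∀ (T : FW Y) (xs : List X) (a : A),
    a ∈ ex (sub1 g h xs T) → (∃ x ∈ xs, a = h x) ∨ ∃ y ∈ ex T, a = g y := by
  intro T
  induction T with
  | nil => intro xs a ha; cases xs <;> simp [sub1, ex] at ha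
  | cons b T ih =>
    intro xs a ha
    rcases b with y | v
    · have key : a = g y ∨ a ∈ ex (sub1 g h xs T) := by
        cases xs <;> simpa [sub1, ex] using ha
      rcases key with rfl | ha
      · exact Or.inr ⟨y, by simp [ex], rfl⟩
      · rcases ih xs a ha with ⟨x, hx, rfl⟩ | ⟨y', hy', rfl⟩
        · exact Or.inl ⟨x, hx, rfl⟩
        · exact Or.inr ⟨y', by simp [ex, hy'], rfl⟩
    · cases xs with
      | nil =>
        simp only [sub1, ex, List.mem_append, List.mem_map] at ha
        rcases ha with ⟨y, hy, rfl⟩ | ha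
        · exact Or.inr ⟨y, by simp [ex, hy], rfl⟩
        · rcases ih [] a ha with ⟨x, hx, rfl⟩ | ⟨y', hy', rfl⟩
          · exact Or.inl ⟨x, hx, rfl⟩
          · exact Or.inr ⟨y', by simp [ex, hy'], rfl⟩
      | cons x xs =>
        simp only [sub1, ex, ex_append, ex_rep, List.mem_append, List.mem_map,
          List.mem_singleton] at ha
        rcases ha with (⟨y, hy, rfl⟩ | rfl) | ⟨y, hy, rfl⟩ | ha
        · exact Or.inr ⟨y, by simp [ex, hy], rfl⟩
        · exact Or.inl ⟨x, by simp, rfl⟩
        · refine Or.inr ⟨y, ?_, rfl⟩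
          have : y ∈ v := by
            rw [Option.mem_toList] at hy
            exact List.mem_of_getLast? hy
          simp [ex, this]
        · rcases ih xs a ha with ⟨x', hx', rfl⟩ | ⟨y', hy', rfl⟩
          · exact Or.inl ⟨x', by simp [hx'], rfl⟩
          · exact Or.inr ⟨y', by simp [ex, hy'], rfl⟩

theorem sub_nf (T₂ : FW Y) : ∀ T₁ : FW X, nf (sub T₂ T₁) = nf T₁ * nf T₂ := by
  intro T₁
  induction T₁ with
  | nil => simp [sub, nf]
  | cons a T ih =>
    rcases a with x | v
    · simpa [sub, nf] using ih
    · simp only [sub, nf_append, sub1_nf, nf, ih]; ring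

theorem sub_fanLen (T₂ : FW Y) (m : ℕ) (h2 : FanLen m T₂) : ∀ T₁ : FW X,
    FanLen (nf T₂) T₁ → FanLen (m + 1) (sub T₂ T₁) := by
  intro T₁
  induction T₁ with
  | nil => intro _ v hv; simp [sub] at hv
  | cons a T ih =>
    intro h1 u hu
    have h3 := ih (fun v hv => h1 v (List.mem_cons_of_mem _ hv))
    rcases a with x | v
    · simp only [sub, List.mem_cons] at hu
      rcases hu with hu | hu
      · exact absurd hu (by simp)
      · exact h3 u hu
    · simp only [sub, List.mem_append] at hu
      rcases hu with hu | hu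
      · exact sub1_fanLen _ _ m T₂ v (h1 v (by simp)) h2 u hu
      · exact h3 u hu

theorem sub_len (T₂ : FW Y) (m : ℕ) (hm : 1 ≤ m) (h2 : FanLen m T₂) : ∀ T₁ : FW X,
    FanLen (nf T₂) T₁ → (ex (sub T₂ T₁)).length =
      nf T₁ * (ex T₂).length + nf T₁ * nf T₂ + (ex T₁).length := by
  intro T₁
  induction T₁ with
  | nil => intro _; simp [sub, ex, nf]
  | cons a T ih =>
    intro h1
    have h3 := ih (fun v hv => h1 v (List.mem_cons_of_mem _ hv))
    rcases a with x | v
    · simp only [sub, ex, nf, List.length_cons, h3]; omega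
    · have h4 := h1 v (by simp)
      simp only [sub, ex, nf, ex_append, List.length_append,
        sub1_len _ _ m hm T₂ v h4 h2, h3, h4]
      ring

/-- fans of the copies are fans of the substitution -/
theorem sub_fan_mem (T₂ : FW Y) : ∀ (T₁ : FW X) (v : List X) (u : List (X ⊕ (List X × Y))),
    Sum.inr v ∈ T₁ →
    Sum.inr u ∈ sub1 (fun y => (Sum.inr (v, y) : X ⊕ (List X × Y))) Sum.inl v T₂ →
    Sum.inr u ∈ sub T₂ T₁ := by
  intro T₁
  induction T₁ with
  | nil => intro v u hv; simp at hv
  | cons a T ih =>
    intro v u hv hu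
    simp only [List.mem_cons] at hv
    rcases hv with hv | hv
    · subst hv
      simp only [sub, List.mem_append]
      exact Or.inl hu
    · rcases a with x | w
      · simp only [sub, List.mem_cons]
        exact Or.inr (ih v u hv hu)
      · simp only [sub, List.mem_append]
        exact Or.inr (ih v u hv hu)

theorem sub_ex_mem (T₂ : FW Y) : ∀ (T₁ : FW X) (c : X ⊕ (List X × Y)),
    c ∈ ex (sub T₂ T₁) → (∃ x ∈ ex T₁, c = Sum.inl x) ∨
      ∃ v y, Sum.inr v ∈ T₁ ∧ y ∈ ex T₂ ∧ c = Sum.inr (v, y) := by
  intro T₁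
  induction T₁ with
  | nil => intro c hc; simp [sub, ex] at hc
  | cons a T ih =>
    intro c hc
    rcases a with x | v
    · simp only [sub, ex, List.mem_cons] at hc
      rcases hc with rfl | hc
      · exact Or.inl ⟨x, by simp [ex], rfl⟩
      · rcases ih c hc with ⟨x', hx', rfl⟩ | ⟨v, y, hv, hy, rfl⟩
        · exact Or.inl ⟨x', by simp [ex, hx'], rfl⟩
        · exact Or.inr ⟨v, y, by simp [hv], hy, rfl⟩
    · simp only [sub, ex_append, List.mem_append] at hc
      rcases hc with hc | hc
      · rcases sub1_ex_mem _ _ T₂ v c hc with ⟨x, hx, rfl⟩ | ⟨y, hy, rfl⟩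
        · exact Or.inl ⟨x, by simp [ex, hx], rfl⟩
        · exact Or.inr ⟨v, y, by simp, hy, rfl⟩
      · rcases ih c hc with ⟨x', hx', rfl⟩ | ⟨v', y, hv, hy, rfl⟩
        · exact Or.inl ⟨x', by simp [ex, hx'], rfl⟩
        · exact Or.inr ⟨v', y, by simp [hv], hy, rfl⟩

theorem sub_inFan (T₂ : FW Y) (T₁ : FW X) (h1 : FanLen (nf T₂) T₁) (i1 : InFan T₁)
    (i2 : InFan T₂) : InFan (sub T₂ T₁) := by
  intro c hc
  rcases sub_ex_mem T₂ T₁ c hc with ⟨x, hx, rfl⟩ | ⟨v, y, hv, hy, rfl⟩
  · obtain ⟨v, hv, hxv⟩ := i1 x hx
    obtain ⟨u, hu, hu'⟩ := sub1_mem_h (fun y => (Sum.inr (v, y) : X ⊕ (List X × Y))) Sum.inl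
      T₂ v (h1 v hv) x hxv
    exact ⟨u, sub_fan_mem T₂ T₁ v u hv hu, hu'⟩
  · obtain ⟨w, hw, hyw⟩ := i2 y hy
    obtain ⟨u, hu, hu'⟩ := sub1_mem_g (fun y => (Sum.inr (v, y) : X ⊕ (List X × Y)))
      (Sum.inl : X → X ⊕ (List X × Y)) T₂ v w hw
    exact ⟨u, sub_fan_mem T₂ T₁ v u hv hu, hu' y hyw⟩

theorem stl : Pool.Agent.W599.DSN.STL := by
  intro X Y m T₁ T₂ hm h1 i1 h2 i2
  exact ⟨sub_fanLen T₂ m h2 T₁ h1, sub_inFan T₂ T₁ h1 i1 i2, sub_nf T₂ T₁,
    sub_len T₂ m hm h2 T₁ h1⟩

end Pool.Agent.W768.DSN
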